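import Pool.Agent.W_MP_56a3d2_al.Final

set_option autoImplicit false

namespace Pool.Agent.Results.MP_56a3d2_al.Cubulated

open Pool.Agent.W_MP_56a3d2_al

/-- The mapping torus `F ⋊_φ ℤ` of the automorphism `a ↦ a`, `b ↦ ab`, `c ↦ bcb` of the free
group `F` on `a, b, c` acts properly and cocompactly by automorphisms on a CAT(0) cube complex. -/
theorem result :
    ∃ φ : MulAut (FreeGroup (Fin 3)),
      φ (FreeGroup.of 0) = FreeGroup.of 0 ∧
      φ (FreeGroup.of 1) = FreeGroup.of 0 * FreeGroup.of 1 ∧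
      φ (FreeGroup.of 2) = FreeGroup.of 1 * FreeGroup.of 2 * FreeGroup.of 1 ∧
      ActsGeometricallyOnCAT0CubeComplex
        (FreeGroup (Fin 3) ⋊[zpowersHom (MulAut (FreeGroup (Fin 3))) φ] Multiplicative ℤ) :=
  ⟨phi, phi_a, phi_b, phi_c, main⟩

end Pool.Agent.Results.MP_56a3d2_al.Cubulated
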